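import Pool.Agent.Lib.helper10.ChipRed

namespace Pool.Agent.Results.MP_5100e0_lc.CoNPHard

open Pool.Agent.Cx Pool.Agent.Chip

/-- a directed multigraph and two chip distributions, the second reachable from the first -/
def ReachM (I : List (List ℕ) × List ℕ × List ℕ) : Prop :=
  IsMulti I.1 ∧ I.2.1.length = I.1.length ∧ I.2.2.length = I.1.length ∧
    Reach I.1 (cfg I.2.1) (cfg I.2.2)

/-- the same for simple digraphs -/
def ReachS (I : List (List ℕ) × List ℕ × List ℕ) : Prop := IsSimple I.1 ∧ ReachM I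

theorem result : CoNPHard (Lang ReachS) ∧ CoNPHard (Lang ReachM) := by
  have hr : PT fun φ : CNF => (AA (occ φ) φ.length (size φ), xl (occ φ) φ.length (size φ),
      yl (occ φ) φ.length (size φ)) := by fun_prop
  exact ⟨(hard_sat.red (Q := fun I => ¬ ReachS I) hr fun φ => (reach_iff_unsat φ).trans
      (not_congr ⟨fun h => ⟨AA_graph.2, AA_graph.1, xl_length, yl_length, h⟩,
        fun h => h.2.2.2.2⟩)).coNPHard,
    (hard_sat.red (Q := fun I => ¬ ReachM I) hr fun φ => (reach_iff_unsat φ).trans
      (not_congr ⟨fun h => ⟨AA_graph.1, xl_length, yl_length, h⟩, fun h => h.2.2.2⟩)).coNPHard⟩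

end Pool.Agent.Results.MP_5100e0_lc.CoNPHard
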